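import Pool.Agent.Lib.MP_7a5332_co.DomPiece

set_option autoImplicit false

namespace Pool.Agent.Results.MP_7a5332_co.DominatedPiece

theorem result (n : ℕ) (G : SimpleGraph (Fin n)) (h4 : G.chromaticNumber = 4)
    (hcrit : ∀ e ∈ G.edgeSet, (G.deleteEdges {e}).Colorable 3)
    (u w : Fin n) (huw : G.Adj u w) (X Y : Set (Fin n))
    (hX : ∀ x ∈ X, G.Adj u x ∧ x ≠ w) (hY : ∀ y ∈ Y, G.Adj w y ∧ y ≠ u) (hXY : Disjoint X Y)
    (hconn : ((G.between X Y).induce (X ∪ Y)).Connected) :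
    14 * (G.between X Y).edgeSet.ncard ≤ n ^ 2 := by
  have h3 : ¬ G.Colorable 3 := by
    intro h
    have h1 := h.chromaticNumber_le
    rw [h4] at h1
    exact absurd h1 (by decide)
  have h := Pool.Agent.Lib.MP_7a5332_co.Dom.dominated
    (Pool.Agent.Lib.MP_7a5332_co.Up.crit_of h3 hcrit) huw X Y hX hY hXY hconn
  rwa [Fintype.card_fin] at h

end Pool.Agent.Results.MP_7a5332_co.DominatedPiece
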