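import Pool.Agent.Lib.MP_7a5332_co.Lower

set_option autoImplicit false

namespace Pool.Agent.Results.MP_7a5332_co.LowerBound

theorem result (ε : ℝ) (hε : 0 < ε) (N : ℕ) :
    ∃ n : ℕ, N ≤ n ∧ ∃ G : SimpleGraph (Fin n), G.CliqueFree 3 ∧ G.chromaticNumber = 4 ∧
      (∀ v : Fin n, ∃ w : Fin n, G.Adj v w) ∧
      (∀ e ∈ G.edgeSet, (G.deleteEdges {e}).Colorable 3) ∧
      (1 / 14 - ε) * (n : ℝ) ^ 2 ≤ (G.edgeSet.ncard : ℝ) :=
  Pool.Agent.Lib.MP_7a5332_co.lower ε hε N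

end Pool.Agent.Results.MP_7a5332_co.LowerBound
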