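import Pool.Agent.Lib.MP_7a5332_co.Upper

set_option autoImplicit false

namespace Pool.Agent.Results.MP_7a5332_co.UpperBound

theorem result (ε : ℝ) (hε : 0 < ε) :
    ∃ N : ℕ, ∀ n : ℕ, N ≤ n → ∀ G : SimpleGraph (Fin n), G.chromaticNumber = 4 →
      (∀ e ∈ G.edgeSet, (G.deleteEdges {e}).Colorable 3) →
      (G.edgeSet.ncard : ℝ) ≤ (1 / 7 + ε) * (n : ℝ) ^ 2 := by
  obtain ⟨N, hN⟩ := Pool.Agent.Lib.MP_7a5332_co.Up.upper hε
  refine ⟨N, fun n hn G h4 hcrit => ?_⟩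
  have h := hN (Fin n) (by simpa using hn) G
    (Pool.Agent.Lib.MP_7a5332_co.Up.crit_of (fun hc => ?_) hcrit)
  · simpa using h
  · have h3 := hc.chromaticNumber_le
    rw [h4] at h3
    exact absurd h3 (by decide)

end Pool.Agent.Results.MP_7a5332_co.UpperBound
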